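import Pool.Agent.helper77.BND.SpecD

/-! EMI: injectivity of the graph of floors. -/

set_option autoImplicit false

open scoped Topology
open Finset

namespace Pool.Agent.BND

open Pool.Agent.CZ Pool.Agent.PV

theorem EMI_vert (hFLV : FLV_stmt) (l : Lv) (hl : IsLv l) (e i : ℕ) (b : Bool) (he : e < l.N)
    (hi : i < l.h e) : (fl l.h (l.W e b) i).1 < l.n := by
  obtain ⟨-, P, Q, h2, -⟩ := hFLV l.h (l.W e b) i (by rw [hl.ht e he b]; exact hi)
  have h3 : (fl l.h (l.W e b) i).1 ∈ P ++ (fl l.h (l.W e b) i).1 :: Q := by simp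
  rw [← h2] at h3
  exact hl.mem e he b _ h3

theorem EMI_self (hFLV : FLV_stmt) (l : Lv) (hl : IsLv l) (e i : ℕ) (s : ℝ) (he : e < l.N)
    (hne : l.n ≤ e) (hi : i < l.h e) :
    emb l e s i (e, i) = ((s * (1 - s) : ℝ) : ℂ) * (1 + (s : ℂ) * Complex.I) := by
  have h1 : ∀ b, (e, i) ≠ fl l.h (l.W e b) i := by
    intro b h
    have h2 := EMI_vert hFLV l hl e i b he hi
    rw [← h] at h2
    exact absurd h2 (not_lt.mpr hne)
  unfold emb
  rw [if_neg (not_lt.mpr hne), Pi.add_apply, Pi.add_apply, Pi.smul_apply, Pi.smul_apply,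
    Pi.single_eq_of_ne (h1 false), Pi.single_eq_of_ne (h1 true), Pi.single_eq_same, smul_zero,
    smul_zero, zero_add, zero_add]

theorem EMI_other (hFLV : FLV_stmt) (l : Lv) (hl : IsLv l) (e i : ℕ) (s : ℝ) (he : e < l.N)
    (hi : i < l.h e) (x : ℕ × ℕ) (hx : l.n ≤ x.1) (hne : x ≠ (e, i)) :
    emb l e s i x = 0 := by
  have h1 : ∀ b, x ≠ fl l.h (l.W e b) i := by
    intro b h
    have h2 := EMI_vert hFLV l hl e i b he hi
    rw [← h] at h2
    exact absurd h2 (not_lt.mpr hx)
  unfold emb
  by_cases hen : e < l.n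
  · rw [if_pos hen, Pi.single_eq_of_ne hne]
  · rw [if_neg hen, Pi.add_apply, Pi.add_apply, Pi.smul_apply, Pi.smul_apply,
      Pi.single_eq_of_ne (h1 false), Pi.single_eq_of_ne (h1 true), Pi.single_eq_of_ne hne,
      smul_zero, smul_zero, zero_add, zero_add]

theorem EMI_val (s : ℝ) : (((s * (1 - s) : ℝ) : ℂ) * (1 + (s : ℂ) * Complex.I)).re = s * (1 - s) ∧
    (((s * (1 - s) : ℝ) : ℂ) * (1 + (s : ℂ) * Complex.I)).im = s * (1 - s) * s := by
  constructor
  · rw [Complex.re_ofReal_mul]
    simp
  · rw [Complex.im_ofReal_mul]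
    simp

theorem EMI_single (x y : ℕ × ℕ) (h : (Pi.single x 1 : Am) = Pi.single y 1) : x = y := by
  by_contra hne
  have h1 := congrFun h x
  rw [Pi.single_eq_same, Pi.single_eq_of_ne hne] at h1
  exact one_ne_zero h1

theorem EMI_end (l : Lv) (e i : ℕ) (b : Bool) (hne : ¬ e < l.n) :
    emb l e (if b then 1 else 0) i = Pi.single (fl l.h (l.W e b) i) 1 := by
  unfold emb
  rw [if_neg hne]
  cases b
  · simp
  · simp

theorem EMI (hFLV : FLV_stmt) : EMI_stmt := by
  intro l hl e s i e' s' i' he hs hi hcan hi' heq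
  obtain ⟨he', hcan', hs'⟩ := hcan
  by_cases hn' : e' < l.n
  · have hR : emb l e' s' i' = Pi.single (e', i') 1 := by
      unfold emb
      rw [if_pos hn']
    by_cases hn : e < l.n
    · left
      have hL : emb l e s i = Pi.single (e, i) 1 := by
        unfold emb
        rw [if_pos hn]
      rw [hL, hR] at heq
      have h1 := EMI_single _ _ heq
      rw [Prod.mk.injEq] at h1
      exact ⟨h1.1, h1.2, Or.inl hn⟩
    · right
      have hne : l.n ≤ e := not_lt.mp hn
      have h1 := congrFun heq (e, i)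
      rw [EMI_self hFLV l hl e i s he hne hi,
        EMI_other hFLV l hl e' i' s' he' hi' (e, i) hne (by
          intro h
          rw [Prod.mk.injEq] at h
          rw [h.1] at hn
          exact hn hn')] at h1
      have h2 := (EMI_val s).1
      rw [h1, Complex.zero_re] at h2
      have h3 : s = 0 ∨ 1 - s = 0 := mul_eq_zero.mp h2.symm
      rcases h3 with h3 | h3
      · refine ⟨false, by simpa using h3, hne, hn', ?_⟩
        have h4 := EMI_end l e i false hn
        have h5 : (if false = true then (1 : ℝ) else 0) = s := by simp [h3]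
        rw [h5, heq, hR] at h4
        exact (EMI_single _ _ h4).symm
      · have h3' : s = 1 := by linarith
        refine ⟨true, by simpa using h3', hne, hn', ?_⟩
        have h4 := EMI_end l e i true hn
        have h5 : (if true = true then (1 : ℝ) else 0) = s := by simp [h3']
        rw [h5, heq, hR] at h4
        exact (EMI_single _ _ h4).symm
  · left
    have hne' : l.n ≤ e' := not_lt.mp hn'
    obtain ⟨h0, h1⟩ : 0 < s' ∧ s' < 1 := hcan'.resolve_left hn'
    have hpos : 0 < s' * (1 - s') := mul_pos h0 (by linarith)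
    have hR := EMI_self hFLV l hl e' i' s' he' hne' hi'
    by_cases hei : (e', i') = (e, i)
    · rw [Prod.mk.injEq] at hei
      obtain ⟨rfl, rfl⟩ := hei
      refine ⟨rfl, rfl, Or.inr ?_⟩
      have hL := EMI_self hFLV l hl e' i' s he hne' hi
      rw [heq, hR] at hL
      have h2 := congrArg Complex.re hL
      have h3 := congrArg Complex.im hL
      rw [(EMI_val s').1, (EMI_val s).1] at h2
      rw [(EMI_val s').2, (EMI_val s).2, ← h2] at h3
      exact (mul_left_cancel₀ hpos.ne' h3).symm
    · exfalso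
      have hL := EMI_other hFLV l hl e i s he hi (e', i') hne' hei
      rw [heq, hR] at hL
      have h2 := (EMI_val s').1
      rw [hL, Complex.zero_re] at h2
      exact hpos.ne h2

end Pool.Agent.BND
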