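import Pool.Agent.helper77.BND.SpecD

/-! HOM: the homeomorphism. -/

set_option autoImplicit false

open scoped Topology
open Finset

namespace Pool.Agent.BND

open Pool.Agent.CZ Pool.Agent.PV

theorem HOM_mem (B : BS) (p : ℕ → Am → Am) (hp : IsMp B B.st p) (x : ℕ → Am) :
    x ∈ XS B ↔ ∀ m, x m ∈ FS (B.L m) ∧ p m (x (m + 1)) = x m := by
  constructor
  · intro hx m
    refine ⟨(hx m).1, ?_⟩
    obtain ⟨e, s, i, h1, h2, h3, h4⟩ := (hx (m + 1)).1
    rw [h4, hp.val m e s i h1 h2 h3]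
    exact ((hx m).2 e s i h1 h2 h3 h4).symm
  · intro hx m
    refine ⟨(hx m).1, ?_⟩
    intro e s i h1 h2 h3 h4
    rw [← (hx m).2, h4, hp.val m e s i h1 h2 h3]

theorem HOM (hPMA : PMA_stmt) (hPQR : PQR_stmt) : HOM_stmt := by
  intro B M hB
  obtain ⟨p, q, r, hp, hq, hr⟩ := hPMA B M hB
  have hR := hPQR B M hB p q r hp hq hr
  have hx2 : ∀ x : ↥(XS B), ∀ m, x.1 m ∈ FS (B.L m) ∧ p m (x.1 (m + 1)) = x.1 m :=
    fun x => (HOM_mem B p hp x.1).1 x.2
  have hA : ∀ x : ↥(XS B), (fun m => q m (x.1 (m + 1))) ∈ XS B := by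
    intro x
    rw [HOM_mem B p hp]
    intro m
    refine ⟨hq.maps m _ (hx2 x (m + 1)).1, ?_⟩
    have h1 := (hR m (x.1 (m + 2)) (hx2 x (m + 2)).1).1
    change p m (q (m + 1) (x.1 (m + 2))) = q m (x.1 (m + 1))
    rw [h1, (hx2 x (m + 1)).2]
  have hBm : ∀ x : ↥(XS B), (fun m => r m (x.1 (m + 1))) ∈ XS B := by
    intro x
    rw [HOM_mem B p hp]
    intro m
    refine ⟨hr.maps m _ (hx2 x (m + 1)).1, ?_⟩
    have h1 := (hR m (x.1 (m + 2)) (hx2 x (m + 2)).1).2.1
    change p m (r (m + 1) (x.1 (m + 2))) = r m (x.1 (m + 1))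
    rw [h1, (hx2 x (m + 1)).2]
  let α : ↥(XS B) ≃ₜ ↥(XS B) :=
    { toFun := fun x => ⟨fun m => q m (x.1 (m + 1)), hA x⟩
      invFun := fun x => ⟨fun m => r m (x.1 (m + 1)), hBm x⟩
      left_inv := by
        intro x
        refine Subtype.ext ?_
        funext m
        change r m (q (m + 1) (x.1 (m + 2))) = x.1 m
        rw [(hR m (x.1 (m + 2)) (hx2 x (m + 2)).1).2.2.2, (hx2 x (m + 1)).2, (hx2 x m).2]
      right_inv := by
        intro x
        refine Subtype.ext ?_
        funext m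
        change q m (r (m + 1) (x.1 (m + 2))) = x.1 m
        rw [(hR m (x.1 (m + 2)) (hx2 x (m + 2)).1).2.2.1, (hx2 x (m + 1)).2, (hx2 x m).2]
      continuous_toFun := by
        refine Continuous.subtype_mk ?_ _
        refine continuous_pi fun m => ?_
        exact (hq.cont m).comp_continuous ((continuous_apply (m + 1)).comp continuous_subtype_val)
          (fun x => (hx2 x (m + 1)).1)
      continuous_invFun := by
        refine Continuous.subtype_mk ?_ _
        refine continuous_pi fun m => ?_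
        exact (hr.cont m).comp_continuous ((continuous_apply (m + 1)).comp continuous_subtype_val)
          (fun x => (hx2 x (m + 1)).1) }
  refine ⟨α, ?_, ?_⟩
  · intro x m e s i h1 h2 h3 h4
    change q m (x.1 (m + 1)) = _
    rw [h4, hq.val m e s i h1 h2 h3]
    rfl
  · intro x m e s i h1 h2 h3 h4
    change r m (x.1 (m + 1)) = _
    rw [h4, hr.val m e s i h1 h2 h3]

end Pool.Agent.BND
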