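import Pool.Agent.helper77.BND.SpecD

/-! LFT: lifting of functions to the graph of floors. -/

set_option autoImplicit false

open scoped Topology
open Finset

namespace Pool.Agent.BND

open Pool.Agent.CZ Pool.Agent.PV

theorem LFT_can (hEME : EME_stmt) (hFLV : FLV_stmt) (l : Lv) (hl : IsLv l) (Z : Type)
    (g : ℕ → ℝ → ℕ → Z)
    (he : ∀ e i (b : Bool), l.n ≤ e → e < l.N → i < l.h e →
      g e (if b then 1 else 0) i = g (fl l.h (l.W e b) i).1 0 (fl l.h (l.W e b) i).2)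
    (e : ℕ) (s : ℝ) (i : ℕ) (h1 : e < l.N) (h2 : s ∈ U) (h3 : i < l.h e) :
    ∃ e' s' i', Can l e' s' ∧ i' < l.h e' ∧ emb l e s i = emb l e' s' i' ∧
      g e s i = g e' s' i' := by
  by_cases h4 : e < l.n ∨ (0 < s ∧ s < 1)
  · exact ⟨e, s, i, ⟨h1, h4, h2⟩, h3, rfl, rfl⟩
  · rw [not_or] at h4
    obtain ⟨h4, h5⟩ := h4
    have h0U : (0 : ℝ) ∈ U := ⟨le_rfl, zero_le_one⟩
    have h6 : ∃ b : Bool, (if b then (1 : ℝ) else 0) = s := by
      by_cases h7 : 0 < s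
      · refine ⟨true, ?_⟩
        have h8 : ¬ s < 1 := fun h => h5 ⟨h7, h⟩
        have h9 : s = 1 := le_antisymm h2.2 (not_lt.mp h8)
        simp [h9]
      · refine ⟨false, ?_⟩
        have h9 : s = 0 := le_antisymm (not_lt.mp h7) h2.1
        simp [h9]
    obtain ⟨b, rfl⟩ := h6
    obtain ⟨h7, P, Q, h8, -⟩ := hFLV l.h (l.W e b) i (by rw [hl.ht e h1 b]; exact h3)
    have h9 : (fl l.h (l.W e b) i).1 < l.n := by
      have h10 : (fl l.h (l.W e b) i).1 ∈ P ++ (fl l.h (l.W e b) i).1 :: Q := by simp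
      rw [← h8] at h10
      exact hl.mem e h1 b _ h10
    exact ⟨(fl l.h (l.W e b) i).1, 0, (fl l.h (l.W e b) i).2,
      ⟨h9.trans_le hl.nN, Or.inl h9, h0U⟩, h7, (hEME l hl).1 e i b h1 h3,
      he e i b (not_lt.mp h4) h1 h3⟩

theorem LFT_wd (hEMI : EMI_stmt) (hEME : EME_stmt) (hFLV : FLV_stmt) (l : Lv) (hl : IsLv l)
    (Z : Type) (g : ℕ → ℝ → ℕ → Z)
    (hv : ∀ e s i, e < l.n → s ∈ U → i < l.h e → g e s i = g e 0 i)
    (he : ∀ e i (b : Bool), l.n ≤ e → e < l.N → i < l.h e →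
      g e (if b then 1 else 0) i = g (fl l.h (l.W e b) i).1 0 (fl l.h (l.W e b) i).2)
    (e : ℕ) (s : ℝ) (i : ℕ) (h1 : e < l.N) (h2 : s ∈ U) (h3 : i < l.h e)
    (e' : ℕ) (s' : ℝ) (i' : ℕ) (h1' : e' < l.N) (h2' : s' ∈ U) (h3' : i' < l.h e')
    (heq : emb l e s i = emb l e' s' i') : g e s i = g e' s' i' := by
  obtain ⟨a, t, j, ⟨c1, c2, c3⟩, c4, c5, c6⟩ := LFT_can hEME hFLV l hl Z g he e s i h1 h2 h3
  obtain ⟨a', t', j', ⟨d1, d2, d3⟩, d4, d5, d6⟩ :=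
    LFT_can hEME hFLV l hl Z g he e' s' i' h1' h2' h3'
  rw [c6, d6]
  have h4 : emb l a t j = emb l a' t' j' := by rw [← c5, ← d5, heq]
  rcases hEMI l hl a t j a' t' j' c1 c3 c4 ⟨d1, d2, d3⟩ d4 h4 with
    ⟨rfl, rfl, h5⟩ | ⟨b, h5, h6, -, -⟩
  · rcases h5 with h5 | h5
    · rw [hv a t j h5 c3 c4, hv a t' j h5 d3 c4]
    · rw [h5]
  · exfalso
    rcases c2 with c2 | ⟨c2, c2'⟩
    · exact absurd c2 (not_lt.mpr h6)
    · cases b
      · simp only [Bool.false_eq_true, if_false] at h5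
        rw [h5] at c2
        exact lt_irrefl _ c2
      · simp only [if_true] at h5
        rw [h5] at c2'
        exact lt_irrefl _ c2'

theorem LFT (hEMI : EMI_stmt) (hEME : EME_stmt) (hFLV : FLV_stmt) : LFT_stmt := by
  intro l hl Z _ g hc hv he
  classical
  have hex : ∃ f : Am → Z, ∀ e s i, e < l.N → s ∈ U → i < l.h e →
      f (emb l e s i) = g e s i := by
    refine ⟨fun y => if h : ∃ x : ℕ × ℝ × ℕ, x.1 < l.N ∧ x.2.1 ∈ U ∧ x.2.2 < l.h x.1 ∧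
      y = emb l x.1 x.2.1 x.2.2 then g h.choose.1 h.choose.2.1 h.choose.2.2 else g 0 0 0, ?_⟩
    intro e s i h1 h2 h3
    have h : ∃ x : ℕ × ℝ × ℕ, x.1 < l.N ∧ x.2.1 ∈ U ∧ x.2.2 < l.h x.1 ∧
      emb l e s i = emb l x.1 x.2.1 x.2.2 := ⟨(e, s, i), h1, h2, h3, rfl⟩
    simp only [dif_pos h]
    obtain ⟨k1, k2, k3, k4⟩ := h.choose_spec
    exact (LFT_wd hEMI hEME hFLV l hl Z g hv he e s i h1 h2 h3 _ _ _ k1 k2 k3 k4).symm
  obtain ⟨f, hf⟩ := hex
  refine ⟨f, ?_, hf⟩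
  rw [continuousOn_iff_isClosed]
  intro C hC
  refine ⟨⋃ e ∈ (range l.N : Set ℕ), ⋃ i ∈ (range (l.h e) : Set ℕ),
    (fun s => emb l e s i) '' (U ∩ (fun s => g e s i) ⁻¹' C), ?_, ?_⟩
  · refine (Finset.finite_toSet _).isClosed_biUnion fun e he' => ?_
    refine (Finset.finite_toSet _).isClosed_biUnion fun i hi' => ?_
    have he'' : e < l.N := by simpa using he'
    have hi'' : i < l.h e := by simpa using hi'
    have h1 : IsClosed (U ∩ (fun s => g e s i) ⁻¹' C) :=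
      (hc e i he'' hi'').preimage_isClosed_of_isClosed isClosed_Icc hC
    have h2 : IsCompact (U ∩ (fun s => g e s i) ⁻¹' C) :=
      isCompact_Icc.of_isClosed_subset h1 Set.inter_subset_left
    exact (h2.image ((hEME l hl).2.2.1 e i)).isClosed
  · ext y
    constructor
    · rintro ⟨h1, e, s, i, h2, h3, h4, rfl⟩
      refine ⟨?_, ⟨e, s, i, h2, h3, h4, rfl⟩⟩
      rw [Set.mem_iUnion₂]
      refine ⟨e, by simpa using h2, ?_⟩
      rw [Set.mem_iUnion₂]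
      refine ⟨i, by simpa using h4, s, ⟨h3, ?_⟩, rfl⟩
      change g e s i ∈ C
      rw [← hf e s i h2 h3 h4]
      exact h1
    · rintro ⟨h1, h5⟩
      refine ⟨?_, h5⟩
      rw [Set.mem_iUnion₂] at h1
      obtain ⟨e, he', h1⟩ := h1
      rw [Set.mem_iUnion₂] at h1
      obtain ⟨i, hi', s, ⟨h2, h3⟩, rfl⟩ := h1
      change f (emb l e s i) ∈ C
      rw [hf e s i (by simpa using he') h2 (by simpa using hi')]
      exact h3

end Pool.Agent.BND
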