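import Pool.Agent.helper77.BND.SpecD

/-! PMA: the maps between the levels. -/

set_option autoImplicit false

open scoped Topology
open Finset

namespace Pool.Agent.BND

open Pool.Agent.CZ Pool.Agent.PV

theorem PMA_gen (hLFT : LFT_stmt) (B : BS) (M : ℕ → ℕ → ℕ → ℕ) (hB : IsBS B M)
    (v : ℕ → ℕ → ℝ → ℕ → Am)
    (hc : ∀ m e i, e < (B.L (m + 1)).N → i < (B.L (m + 1)).h e → ContinuousOn (fun s => v m e s i) U)
    (hv : ∀ m e s i, e < (B.L (m + 1)).n → s ∈ U → i < (B.L (m + 1)).h e → v m e s i = v m e 0 i)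
    (he : ∀ m e i (b : Bool), (B.L (m + 1)).n ≤ e → e < (B.L (m + 1)).N → i < (B.L (m + 1)).h e →
      v m e (if b then 1 else 0) i = v m (fl (B.L (m + 1)).h ((B.L (m + 1)).W e b) i).1 0
        (fl (B.L (m + 1)).h ((B.L (m + 1)).W e b) i).2)
    (hFS : ∀ m e s i, e < (B.L (m + 1)).N → s ∈ U → i < (B.L (m + 1)).h e → v m e s i ∈ FS (B.L m)) :
    ∃ p : ℕ → Am → Am, IsMp B v p := by
  have h1 : ∀ m, ∃ f : Am → Am, ContinuousOn f (FS (B.L (m + 1))) ∧
      ∀ e s i, e < (B.L (m + 1)).N → s ∈ U → i < (B.L (m + 1)).h e →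
        f (emb (B.L (m + 1)) e s i) = v m e s i :=
    fun m => hLFT (B.L (m + 1)) (hB.lv (m + 1)) Am (v m) (hc m) (hv m) (he m)
  choose p hp1 hp2 using h1
  refine ⟨p, hp1, ?_, hp2⟩
  rintro m y ⟨e, s, i, h1, h2, h3, rfl⟩
  rw [hp2 m e s i h1 h2 h3]
  exact hFS m e s i h1 h2 h3

theorem PMA (hLFT : LFT_stmt) (hUPC : UPC_stmt) (hSTE : STE_stmt) : PMA_stmt := by
  intro B M hB
  have hst : ∀ m e s, e < (B.L (m + 1)).n → B.st m e s = B.st m e 0 := by
    intro m e s he
    funext i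
    unfold BS.st
    rw [hB.vtx m e s he]
  obtain ⟨p, hp⟩ := PMA_gen hLFT B M hB B.st hB.cont
    (fun m e s i he _ _ => by rw [hst m e s he])
    (fun m e i b h1 h2 h3 => (hUPC B M hB m e i b h1 h2 h3).1)
    (fun m e s i h1 h2 h3 => ((hSTE B M hB m).2.2 e s h1 h2).2.2 i h3)
  obtain ⟨q, hq⟩ := PMA_gen hLFT B M hB B.up
    (by
      intro m e i he hi
      unfold BS.up
      by_cases h1 : i + 1 < (B.L (m + 1)).h e
      · simp only [if_pos h1]
        exact hB.cont m e (i + 1) he h1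
      · simp only [if_neg h1]
        exact continuousOn_const)
    (fun m e s i he _ _ => by
      unfold BS.up
      rw [hst m e s he])
    (fun m e i b h1 h2 h3 => (hUPC B M hB m e i b h1 h2 h3).2.1)
    (by
      intro m e s i h1 h2 h3
      unfold BS.up
      by_cases h4 : i + 1 < (B.L (m + 1)).h e
      · rw [if_pos h4]
        exact ((hSTE B M hB m).2.2 e s h1 h2).2.2 _ h4
      · rw [if_neg h4]
        exact (hSTE B M hB m).1)
  obtain ⟨r, hr⟩ := PMA_gen hLFT B M hB B.dn
    (by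
      intro m e i he hi
      unfold BS.dn
      by_cases h1 : i = 0
      · simp only [if_pos h1]
        exact continuousOn_const
      · simp only [if_neg h1]
        exact hB.cont m e (i - 1) he (by omega))
    (fun m e s i he _ _ => by
      unfold BS.dn
      rw [hst m e s he])
    (fun m e i b h1 h2 h3 => (hUPC B M hB m e i b h1 h2 h3).2.2)
    (by
      intro m e s i h1 h2 h3
      unfold BS.dn
      by_cases h4 : i = 0
      · rw [if_pos h4]
        exact (hSTE B M hB m).2.1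
      · rw [if_neg h4]
        exact ((hSTE B M hB m).2.2 e s h1 h2).2.2 _ (by omega))
  exact ⟨p, q, r, hp, hq, hr⟩

end Pool.Agent.BND
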