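import Pool.Agent.helper77.BND.SpecD

/-! PQR: the relations between the maps between the levels. -/

set_option autoImplicit false

open scoped Topology
open Finset

namespace Pool.Agent.BND

open Pool.Agent.CZ Pool.Agent.PV

theorem PQR (hSTN : STN_stmt) (hSTE : STE_stmt) : PQR_stmt := by
  intro B M hB p q r hp hq hr m y hy
  obtain ⟨e, s, i, heN, hs, hi, rfl⟩ := hy
  have h0U : (0 : ℝ) ∈ U := ⟨le_rfl, zero_le_one⟩
  have h0N : 0 < (B.L (m + 1)).N := (hB.lv (m + 1)).n0.trans_le (hB.lv (m + 1)).nN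
  have hi' : i < (B.L (m + 1 + 1)).h e := hi
  obtain ⟨a, j, i₀, -, haN, haU, hj, hij, hle, hfl, -, -, hprev, -, hnext⟩ :=
    hSTN B M hB (m + 1) e s i heN hs hi
  obtain ⟨-, -, hste⟩ := hSTE B M hB m
  have hpy : p (m + 1) (emb (B.L (m + 2)) e s i) = emb (B.L (m + 1)) a.1 a.2 j := by
    rw [hp.val (m + 1) e s i heN hs hi, hij]
    exact hfl j hj
  have hup : (j + 1 < (B.L (m + 1)).h a.1 ∧
      q (m + 1) (emb (B.L (m + 2)) e s i) = emb (B.L (m + 1)) a.1 a.2 (j + 1)) ∨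
      (j + 1 = (B.L (m + 1)).h a.1 ∧ ∃ v t, v < (B.L (m + 1)).N ∧ t ∈ U ∧
        q (m + 1) (emb (B.L (m + 2)) e s i) = emb (B.L (m + 1)) v t 0) := by
    have h1 : q (m + 1) (emb (B.L (m + 2)) e s i) = B.up (m + 1) e s i :=
      hq.val (m + 1) e s i heN hs hi
    rw [h1]
    unfold BS.up
    by_cases h2 : j + 1 < (B.L (m + 1)).h a.1
    · left
      refine ⟨h2, ?_⟩
      have h3 : i + 1 < (B.L (m + 1 + 1)).h e := by omega
      rw [if_pos h3, hij, add_assoc]
      exact hfl (j + 1) h2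
    · right
      have h2' : j + 1 = (B.L (m + 1)).h a.1 := by omega
      refine ⟨h2', ?_⟩
      by_cases h3 : i + 1 < (B.L (m + 1 + 1)).h e
      · rw [if_pos h3]
        obtain ⟨a', h4, h5, h6⟩ := hnext (by omega)
        refine ⟨a'.1, a'.2, h4, h5, ?_⟩
        have h7 : i + 1 = i₀ + (B.L (m + 1)).h a.1 := by omega
        rw [h7]
        exact h6
      · rw [if_neg h3]
        exact ⟨0, 0, h0N, h0U, rfl⟩
  have hdn : (0 < j ∧
      r (m + 1) (emb (B.L (m + 2)) e s i) = emb (B.L (m + 1)) a.1 a.2 (j - 1)) ∨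
      (j = 0 ∧ ∃ v t, v < (B.L (m + 1)).N ∧ t ∈ U ∧
        r (m + 1) (emb (B.L (m + 2)) e s i) = emb (B.L (m + 1)) v t ((B.L (m + 1)).h v - 1)) := by
    have h1 : r (m + 1) (emb (B.L (m + 2)) e s i) = B.dn (m + 1) e s i :=
      hr.val (m + 1) e s i heN hs hi
    rw [h1]
    unfold BS.dn
    by_cases h2 : 0 < j
    · left
      refine ⟨h2, ?_⟩
      have h3 : ¬ i = 0 := by omega
      rw [if_neg h3]
      have h4 : i - 1 = i₀ + (j - 1) := by omega
      rw [h4]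
      exact hfl (j - 1) (by omega)
    · right
      refine ⟨by omega, ?_⟩
      by_cases h3 : i = 0
      · rw [if_pos h3]
        exact ⟨0, 0, h0N, h0U, rfl⟩
      · rw [if_neg h3]
        obtain ⟨a', h4, h5, h6⟩ := hprev (by omega)
        refine ⟨a'.1, a'.2, h4, h5, ?_⟩
        have h7 : i - 1 = i₀ - 1 := by omega
        rw [h7]
        exact h6
  have hqa : q m (emb (B.L (m + 1)) a.1 a.2 j) = B.up m a.1 a.2 j := hq.val m _ _ _ haN haU hj
  have hra : r m (emb (B.L (m + 1)) a.1 a.2 j) = B.dn m a.1 a.2 j := hr.val m _ _ _ haN haU hj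
  have hpa : p m (emb (B.L (m + 1)) a.1 a.2 j) = B.st m a.1 a.2 j := hp.val m _ _ _ haN haU hj
  have hpos : ∀ v, v < (B.L (m + 1)).N → 0 < (B.L (m + 1)).h v := (hB.lv (m + 1)).pos
  rw [hpy, hqa, hra, hpa]
  have hUP : p m (q (m + 1) (emb (B.L (m + 2)) e s i)) = B.up m a.1 a.2 j ∧
      r m (q (m + 1) (emb (B.L (m + 2)) e s i)) = B.st m a.1 a.2 j := by
    rcases hup with ⟨h1, h2⟩ | ⟨h1, v, t, hv, ht, h2⟩
    · rw [h2, hp.val m _ _ _ haN haU h1, hr.val m _ _ _ haN haU h1]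
      unfold BS.up BS.dn
      rw [if_pos h1, if_neg (Nat.succ_ne_zero j), Nat.add_sub_cancel]
      exact ⟨rfl, rfl⟩
    · rw [h2, hp.val m _ _ _ hv ht (hpos v hv), hr.val m _ _ _ hv ht (hpos v hv)]
      unfold BS.up BS.dn
      have h3 : ¬ j + 1 < (B.L (m + 1)).h a.1 := by omega
      rw [if_neg h3, if_pos rfl]
      refine ⟨(hste v t hv ht).1, ?_⟩
      have h4 : j = (B.L (m + 1)).h a.1 - 1 := by omega
      rw [h4]
      exact (hste a.1 a.2 haN haU).2.1.symm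
  have hDN : p m (r (m + 1) (emb (B.L (m + 2)) e s i)) = B.dn m a.1 a.2 j ∧
      q m (r (m + 1) (emb (B.L (m + 2)) e s i)) = B.st m a.1 a.2 j := by
    rcases hdn with ⟨h1, h2⟩ | ⟨h1, v, t, hv, ht, h2⟩
    · have h3 : j - 1 < (B.L (m + 1)).h a.1 := by omega
      rw [h2, hp.val m _ _ _ haN haU h3, hq.val m _ _ _ haN haU h3]
      unfold BS.up BS.dn
      have h4 : ¬ j = 0 := by omega
      have h5 : j - 1 + 1 = j := by omega
      rw [if_neg h4, h5, if_pos hj]
      exact ⟨rfl, rfl⟩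
    · have h3 : (B.L (m + 1)).h v - 1 < (B.L (m + 1)).h v := by
        have := hpos v hv
        omega
      rw [h2, hp.val m _ _ _ hv ht h3, hq.val m _ _ _ hv ht h3]
      unfold BS.up BS.dn
      have h4 : ¬ (B.L (m + 1)).h v - 1 + 1 < (B.L (m + 1)).h v := by
        have := hpos v hv
        omega
      rw [if_neg h4, if_pos h1]
      refine ⟨(hste v t hv ht).2.1, ?_⟩
      rw [h1]
      exact (hste a.1 a.2 haN haU).1.symm
  exact ⟨hUP.1, hDN.1, hDN.2, hUP.2⟩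

end Pool.Agent.BND
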