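import Pool.Agent.helper77.BND.SpecD

/-! SBT: tent functions. -/

set_option autoImplicit false

open scoped Topology
open Finset

namespace Pool.Agent.BND

open Pool.Agent.CZ Pool.Agent.PV

theorem SBT_fin (hEME : EME_stmt) (l : Lv) (hl : IsLv l) (Bad : Set ℝ) (hBad : Bad.Countable)
    (f : Am → ℝ) (s1 s2 : ℝ → ℝ) (hi1 : Function.Injective s1) (hi2 : Function.Injective s2)
    (hs1 : ∀ c, 0 < c → c < 1 → 0 < s1 c ∧ s1 c < 1)
    (hs2 : ∀ c, 0 < c → c < 1 → 0 < s2 c ∧ s2 c < 1)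
    (hf : ∀ e s i c, Can l e s → i < l.h e → 0 < c → c < 1 → f (emb l e s i) = c →
      l.n ≤ e ∧ (s = s1 c ∨ s = s2 c)) :
    ∃ T : Set ℝ, T.Countable ∧ ∀ c, 0 < c → c < 1 → c ∉ T →
    ∃ F : Finset Am, (∀ y ∈ F, ∃ e s i, l.n ≤ e ∧ e < l.N ∧ 0 < s ∧ s < 1 ∧ s ∉ Bad ∧ i < l.h e ∧
      y = emb l e s i) ∧ ∀ y ∈ FS l, f y = c → y ∈ F := by
  classical
  refine ⟨s1 ⁻¹' Bad ∪ s2 ⁻¹' Bad, (hBad.preimage hi1).union (hBad.preimage hi2), ?_⟩
  intro c hc0 hc1 hcT
  rw [Set.mem_union, not_or] at hcT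
  refine ⟨(range l.N).biUnion fun e => (range (l.h e)).biUnion fun i =>
    if l.n ≤ e then {emb l e (s1 c) i, emb l e (s2 c) i} else ∅, ?_, ?_⟩
  · intro y hy
    rw [mem_biUnion] at hy
    obtain ⟨e, he, hy⟩ := hy
    rw [mem_biUnion] at hy
    obtain ⟨i, hi, hy⟩ := hy
    by_cases hne : l.n ≤ e
    · rw [if_pos hne, mem_insert, mem_singleton] at hy
      rcases hy with rfl | rfl
      · exact ⟨e, s1 c, i, hne, mem_range.mp he, (hs1 c hc0 hc1).1, (hs1 c hc0 hc1).2, hcT.1,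
          mem_range.mp hi, rfl⟩
      · exact ⟨e, s2 c, i, hne, mem_range.mp he, (hs2 c hc0 hc1).1, (hs2 c hc0 hc1).2, hcT.2,
          mem_range.mp hi, rfl⟩
    · rw [if_neg hne] at hy
      exact absurd hy (notMem_empty _)
  · rintro y ⟨e, s, i, h1, h2, h3, rfl⟩ hy
    obtain ⟨e', s', i', k1, k2, k3, -⟩ := (hEME l hl).2.2.2 e s i h1 h2 h3
    rw [k3] at hy ⊢
    obtain ⟨k4, k5⟩ := hf e' s' i' c k1 k2 hc0 hc1 hy
    rw [mem_biUnion]
    refine ⟨e', mem_range.mpr k1.1, ?_⟩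
    rw [mem_biUnion]
    refine ⟨i', mem_range.mpr k2, ?_⟩
    rw [if_pos k4, mem_insert, mem_singleton]
    rcases k5 with rfl | rfl
    · exact Or.inl rfl
    · exact Or.inr rfl

theorem SBT_vert (hFLV : FLV_stmt) (l : Lv) (hl : IsLv l) (e i : ℕ) (b : Bool) (he : e < l.N)
    (hi : i < l.h e) : (fl l.h (l.W e b) i).1 < l.n := by
  obtain ⟨-, P, Q, h2, -⟩ := hFLV l.h (l.W e b) i (by rw [hl.ht e he b]; exact hi)
  have h3 : (fl l.h (l.W e b) i).1 ∈ P ++ (fl l.h (l.W e b) i).1 :: Q := by simp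
  rw [← h2] at h3
  exact hl.mem e he b _ h3

theorem SBT_max (x c : ℝ) (hc : 0 < c) (h : max 0 x = c) : x = c := by
  rcases le_total 0 x with h1 | h1
  · rwa [max_eq_right h1] at h
  · rw [max_eq_left h1] at h
    exact absurd h hc.ne

/-- the point is inside a band -/
theorem SBT_band (hLFT : LFT_stmt) (hEME : EME_stmt) (hFLV : FLV_stmt) (l : Lv) (hl : IsLv l)
    (Bad : Set ℝ) (hBad : Bad.Countable) (e₀ : ℕ) (s₀ : ℝ) (i₀ : ℕ) (he₀ : e₀ < l.N)
    (hn₀ : l.n ≤ e₀) (h0 : 0 < s₀) (h1 : s₀ < 1) (hi₀ : i₀ < l.h e₀) :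
    ∃ f : Am → ℝ, ContinuousOn f (FS l) ∧ f (emb l e₀ s₀ i₀) = 1 ∧
  (∀ y ∈ FS l, f y ≤ 1 ∧ (f y = 1 → y = emb l e₀ s₀ i₀)) ∧
    ∃ T : Set ℝ, T.Countable ∧ ∀ c, 0 < c → c < 1 → c ∉ T →
    ∃ F : Finset Am, (∀ y ∈ F, ∃ e s i, l.n ≤ e ∧ e < l.N ∧ 0 < s ∧ s < 1 ∧ s ∉ Bad ∧ i < l.h e ∧
      y = emb l e s i) ∧ ∀ y ∈ FS l, f y = c → y ∈ F := by
  have hδ : 0 < min s₀ (1 - s₀) := lt_min h0 (by linarith)
  have hδ1 : min s₀ (1 - s₀) ≤ s₀ := min_le_left _ _
  have hδ2 : min s₀ (1 - s₀) ≤ 1 - s₀ := min_le_right _ _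
  set δ := min s₀ (1 - s₀) with hδd
  set g : ℕ → ℝ → ℕ → ℝ := fun e s i => if e = e₀ ∧ i = i₀ then max 0 (1 - |s - s₀| / δ) else 0
    with hg
  have hg0 : ∀ e s i, ¬ (e = e₀ ∧ i = i₀) → g e s i = 0 := fun e s i h => if_neg h
  have hg1 : ∀ e s i, (e = e₀ ∧ i = i₀) → g e s i = max 0 (1 - |s - s₀| / δ) :=
    fun e s i h => if_pos h
  have hgle : ∀ s, max 0 (1 - |s - s₀| / δ) ≤ 1 := by
    intro s
    refine max_le zero_le_one ?_
    have : 0 ≤ |s - s₀| / δ := div_nonneg (abs_nonneg _) hδ.le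
    linarith
  obtain ⟨f, hfc, hf⟩ := hLFT l hl ℝ g
    (by
      intro e i _ _
      by_cases h : e = e₀ ∧ i = i₀
      · have h2 : (fun s => g e s i) = fun s => max 0 (1 - |s - s₀| / δ) := by
          funext s
          exact hg1 e s i h
        rw [h2]
        exact Continuous.continuousOn (by fun_prop)
      · have h2 : (fun s => g e s i) = fun _ => 0 := by
          funext s
          exact hg0 e s i h
        rw [h2]
        exact continuousOn_const)
    (by
      intro e s i he _ _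
      have h : ¬ (e = e₀ ∧ i = i₀) := fun h => absurd (h.1 ▸ he) (not_lt.mpr hn₀)
      rw [hg0 e s i h, hg0 e 0 i h])
    (by
      intro e i b hne he hi
      have h2 := SBT_vert hFLV l hl e i b he hi
      have h : ¬ ((fl l.h (l.W e b) i).1 = e₀ ∧ (fl l.h (l.W e b) i).2 = i₀) :=
        fun h => absurd (h.1 ▸ h2) (not_lt.mpr hn₀)
      rw [hg0 _ _ _ h]
      by_cases h3 : e = e₀ ∧ i = i₀
      · rw [hg1 _ _ _ h3]
        refine max_eq_left ?_
        have h4 : δ ≤ |(if b then 1 else 0) - s₀| := by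
          cases b
          · simp only [Bool.false_eq_true, if_false]
            rw [zero_sub, abs_neg, abs_of_pos h0]
            exact hδ1
          · simp only [if_true]
            rw [abs_of_nonneg (by linarith)]
            exact hδ2
        have h5 : 1 ≤ |(if b then 1 else 0) - s₀| / δ := by
          rw [le_div_iff₀ hδ, one_mul]
          exact h4
        linarith
      · exact hg0 _ _ _ h3)
  have hs₀U : s₀ ∈ U := ⟨h0.le, h1.le⟩
  refine ⟨f, hfc, ?_, ?_, ?_⟩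
  · rw [hf e₀ s₀ i₀ he₀ hs₀U hi₀, hg1 _ _ _ ⟨rfl, rfl⟩]
    simp
  · rintro y ⟨e, s, i, k1, k2, k3, rfl⟩
    rw [hf e s i k1 k2 k3]
    by_cases h : e = e₀ ∧ i = i₀
    · rw [hg1 _ _ _ h]
      refine ⟨hgle s, ?_⟩
      intro h3
      have h4 := SBT_max _ _ one_pos h3
      have h5 : |s - s₀| / δ = 0 := by linarith
      rw [div_eq_zero_iff] at h5
      have h6 : s - s₀ = 0 := abs_eq_zero.mp (h5.resolve_right hδ.ne')
      have h7 : s = s₀ := by linarith
      rw [h7, h.1, h.2]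
    · rw [hg0 _ _ _ h]
      exact ⟨zero_le_one, fun h => absurd h zero_ne_one⟩
  · refine SBT_fin hEME l hl Bad hBad f (fun c => s₀ + δ * (1 - c)) (fun c => s₀ - δ * (1 - c))
      ?_ ?_ ?_ ?_ ?_
    · intro a b hab
      have h2 : s₀ + δ * (1 - a) = s₀ + δ * (1 - b) := hab
      have h3 : δ * (1 - a) = δ * (1 - b) := by linarith
      have h4 := mul_left_cancel₀ hδ.ne' h3
      linarith
    · intro a b hab
      have h2 : s₀ - δ * (1 - a) = s₀ - δ * (1 - b) := hab
      have h3 : δ * (1 - a) = δ * (1 - b) := by linarith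
      have h4 := mul_left_cancel₀ hδ.ne' h3
      linarith
    · intro c hc0 hc1
      have h2 : 0 < δ * (1 - c) := mul_pos hδ (by linarith)
      have h3 : δ * (1 - c) < δ * 1 := mul_lt_mul_of_pos_left (by linarith) hδ
      constructor
      · change 0 < s₀ + δ * (1 - c)
        linarith
      · change s₀ + δ * (1 - c) < 1
        linarith
    · intro c hc0 hc1
      have h2 : 0 < δ * (1 - c) := mul_pos hδ (by linarith)
      have h3 : δ * (1 - c) < δ * 1 := mul_lt_mul_of_pos_left (by linarith) hδ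
      constructor
      · change 0 < s₀ - δ * (1 - c)
        linarith
      · change s₀ - δ * (1 - c) < 1
        linarith
    · intro e s i c hcan hi hc0 hc1 h2
      rw [hf e s i hcan.1 hcan.2.2 hi] at h2
      by_cases h : e = e₀ ∧ i = i₀
      · rw [hg1 _ _ _ h] at h2
        refine ⟨by rw [h.1]; exact hn₀, ?_⟩
        have h3 := SBT_max _ _ hc0 h2
        have h4 : |s - s₀| / δ = 1 - c := by linarith
        rw [div_eq_iff hδ.ne'] at h4
        rcases abs_choice (s - s₀) with h5 | h5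
        · left
          change s = s₀ + δ * (1 - c)
          rw [h5] at h4
          linarith
        · right
          change s = s₀ - δ * (1 - c)
          rw [h5] at h4
          linarith
      · rw [hg0 _ _ _ h] at h2
        exact absurd h2 hc0.ne

/-- the point is a floor of a vertex -/
theorem SBT_vtx (hLFT : LFT_stmt) (hEME : EME_stmt) (hFLV : FLV_stmt) (l : Lv) (hl : IsLv l)
    (Bad : Set ℝ) (hBad : Bad.Countable) (e₀ : ℕ) (s₀ : ℝ) (i₀ : ℕ) (he₀ : e₀ < l.N)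
    (hn₀ : e₀ < l.n) (hs₀ : s₀ ∈ U) (hi₀ : i₀ < l.h e₀) :
    ∃ f : Am → ℝ, ContinuousOn f (FS l) ∧ f (emb l e₀ s₀ i₀) = 1 ∧
  (∀ y ∈ FS l, f y ≤ 1 ∧ (f y = 1 → y = emb l e₀ s₀ i₀)) ∧
    ∃ T : Set ℝ, T.Countable ∧ ∀ c, 0 < c → c < 1 → c ∉ T →
    ∃ F : Finset Am, (∀ y ∈ F, ∃ e s i, l.n ≤ e ∧ e < l.N ∧ 0 < s ∧ s < 1 ∧ s ∉ Bad ∧ i < l.h e ∧
      y = emb l e s i) ∧ ∀ y ∈ FS l, f y = c → y ∈ F := by
  classical
  set ι : Prop → ℝ := fun P => if P then 1 else 0 with hι
  have hι1 : ∀ P : Prop, P → ι P = 1 := fun P h => if_pos h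
  have hι0 : ∀ P : Prop, ¬ P → ι P = 0 := fun P h => if_neg h
  have hιc : ∀ P : Prop, ι P = 0 ∨ ι P = 1 := by
    intro P
    by_cases h : P
    · exact Or.inr (hι1 P h)
    · exact Or.inl (hι0 P h)
  set g : ℕ → ℝ → ℕ → ℝ := fun e s i => if e < l.n then ι ((e, i) = (e₀, i₀)) else
    ι (fl l.h (l.W e false) i = (e₀, i₀)) * max 0 (1 - 2 * s) +
      ι (fl l.h (l.W e true) i = (e₀, i₀)) * max 0 (2 * s - 1) with hg
  have hg1 : ∀ e s i, e < l.n → g e s i = ι ((e, i) = (e₀, i₀)) := fun e s i h => if_pos h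
  have hg0 : ∀ e s i, l.n ≤ e → g e s i =
      ι (fl l.h (l.W e false) i = (e₀, i₀)) * max 0 (1 - 2 * s) +
      ι (fl l.h (l.W e true) i = (e₀, i₀)) * max 0 (2 * s - 1) :=
    fun e s i h => if_neg (not_lt.mpr h)
  have hlt : ∀ e s i, l.n ≤ e → 0 < s → s < 1 → g e s i < 1 := by
    intro e s i hne h0 h1
    rw [hg0 e s i hne]
    rcases le_total s (1 / 2) with h2 | h2
    · rw [max_eq_left (by linarith : 2 * s - 1 ≤ 0), max_eq_right (by linarith : 0 ≤ 1 - 2 * s)]
      rcases hιc (fl l.h (l.W e false) i = (e₀, i₀)) with h3 | h3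
      · rw [h3]
        simp
      · rw [h3]
        linarith
    · rw [max_eq_right (by linarith : 0 ≤ 2 * s - 1), max_eq_left (by linarith : 1 - 2 * s ≤ 0)]
      rcases hιc (fl l.h (l.W e true) i = (e₀, i₀)) with h3 | h3
      · rw [h3]
        simp
      · rw [h3]
        linarith
  obtain ⟨f, hfc, hf⟩ := hLFT l hl ℝ g
    (by
      intro e i _ _
      by_cases h : e < l.n
      · have h2 : (fun s => g e s i) = fun _ => ι ((e, i) = (e₀, i₀)) := by
          funext s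
          exact hg1 e s i h
        rw [h2]
        exact continuousOn_const
      · have h2 : (fun s => g e s i) = fun s =>
            ι (fl l.h (l.W e false) i = (e₀, i₀)) * max 0 (1 - 2 * s) +
            ι (fl l.h (l.W e true) i = (e₀, i₀)) * max 0 (2 * s - 1) := by
          funext s
          exact hg0 e s i (not_lt.mp h)
        rw [h2]
        exact Continuous.continuousOn (by fun_prop))
    (by
      intro e s i he _ _
      rw [hg1 e s i he, hg1 e 0 i he])
    (by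
      intro e i b hne he hi
      have h2 := SBT_vert hFLV l hl e i b he hi
      rw [hg0 e _ i hne, hg1 _ _ _ h2]
      cases b
      · have h3 : max (0 : ℝ) (1 - 2 * 0) = 1 := by norm_num
        have h4 : max (0 : ℝ) (2 * 0 - 1) = 0 := by norm_num
        simp only [Bool.false_eq_true, if_false]
        rw [h3, h4, mul_one, mul_zero, add_zero]
      · have h3 : max (0 : ℝ) (1 - 2 * 1) = 0 := by norm_num
        have h4 : max (0 : ℝ) (2 * 1 - 1) = 1 := by norm_num
        simp only [if_true]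
        rw [h3, h4, mul_one, mul_zero, zero_add])
  refine ⟨f, hfc, ?_, ?_, ?_⟩
  · rw [hf e₀ s₀ i₀ he₀ hs₀ hi₀, hg1 _ _ _ hn₀]
    exact hι1 _ rfl
  · rintro y ⟨e', s', i', k1', k2', k3', rfl⟩
    obtain ⟨e, s, i, ⟨k1, k4, k2⟩, k3, k5, -⟩ := (hEME l hl).2.2.2 e' s' i' k1' k2' k3'
    rw [k5, hf e s i k1 k2 k3]
    by_cases h : e < l.n
    · rw [hg1 _ _ _ h]
      by_cases h3 : (e, i) = (e₀, i₀)
      · rw [hι1 _ h3]
        refine ⟨le_rfl, fun _ => ?_⟩
        rw [Prod.mk.injEq] at h3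
        obtain ⟨rfl, rfl⟩ := h3
        rw [(hEME l hl).2.1 e s i h, (hEME l hl).2.1 e s₀ i h]
      · rw [hι0 _ h3]
        exact ⟨zero_le_one, fun h => absurd h zero_ne_one⟩
    · obtain ⟨h0, h1⟩ := k4.resolve_left h
      have h2 := hlt e s i (not_lt.mp h) h0 h1
      exact ⟨h2.le, fun h3 => absurd h3 h2.ne⟩
  · refine SBT_fin hEME l hl Bad hBad f (fun c => (1 - c) / 2) (fun c => (1 + c) / 2)
      ?_ ?_ ?_ ?_ ?_
    · intro a b hab
      have h2 : (1 - a) / 2 = (1 - b) / 2 := hab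
      linarith
    · intro a b hab
      have h2 : (1 + a) / 2 = (1 + b) / 2 := hab
      linarith
    · intro c hc0 hc1
      constructor
      · change 0 < (1 - c) / 2
        linarith
      · change (1 - c) / 2 < 1
        linarith
    · intro c hc0 hc1
      constructor
      · change 0 < (1 + c) / 2
        linarith
      · change (1 + c) / 2 < 1
        linarith
    · intro e s i c hcan hi hc0 hc1 h2
      rw [hf e s i hcan.1 hcan.2.2 hi] at h2
      by_cases h : e < l.n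
      · rw [hg1 _ _ _ h] at h2
        exfalso
        rcases hιc ((e, i) = (e₀, i₀)) with h3 | h3
        · rw [h3] at h2
          exact hc0.ne h2
        · rw [h3] at h2
          exact hc1.ne h2.symm
      · refine ⟨not_lt.mp h, ?_⟩
        rw [hg0 _ _ _ (not_lt.mp h)] at h2
        rcases le_total s (1 / 2) with h5 | h5
        · left
          change s = (1 - c) / 2
          rw [max_eq_left (by linarith : 2 * s - 1 ≤ 0),
            max_eq_right (by linarith : 0 ≤ 1 - 2 * s)] at h2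
          rcases hιc (fl l.h (l.W e false) i = (e₀, i₀)) with h3 | h3
          · rw [h3] at h2
            linarith
          · rw [h3] at h2
            linarith
        · right
          change s = (1 + c) / 2
          rw [max_eq_right (by linarith : 0 ≤ 2 * s - 1),
            max_eq_left (by linarith : 1 - 2 * s ≤ 0)] at h2
          rcases hιc (fl l.h (l.W e true) i = (e₀, i₀)) with h3 | h3
          · rw [h3] at h2
            linarith
          · rw [h3] at h2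
            linarith

theorem SBT (hLFT : LFT_stmt) (hEMI : EMI_stmt) (hEME : EME_stmt) (hFLV : FLV_stmt) : SBT_stmt := by
  rintro l hl Bad hBad y₀ ⟨e, s, i, h1, h2, h3, rfl⟩
  obtain ⟨e₀, s₀, i₀, ⟨k1, k2, k3⟩, k4, k5, -⟩ := (hEME l hl).2.2.2 e s i h1 h2 h3
  rw [k5]
  rcases k2 with k2 | ⟨k2, k2'⟩
  · exact SBT_vtx hLFT hEME hFLV l hl Bad hBad e₀ s₀ i₀ k1 k2 k3 k4
  · by_cases h : e₀ < l.n
    · exact SBT_vtx hLFT hEME hFLV l hl Bad hBad e₀ s₀ i₀ k1 h k3 k4
    · exact SBT_band hLFT hEME hFLV l hl Bad hBad e₀ s₀ i₀ k1 (not_lt.mp h) k2 k2' k4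

end Pool.Agent.BND
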