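import Pool.Agent.helper77.BND.SpecD

/-! SBV: the number of visits. -/

set_option autoImplicit false

open scoped Topology
open Finset

namespace Pool.Agent.BND

open Pool.Agent.CZ Pool.Agent.PV

section

variable (B : BS) (α : ↥(XS B) ≃ₜ ↥(XS B))

/-- the number of visits -/
noncomputable def SBV_c (k : ℕ) (q : Am) (x : ↥(XS B)) (N : ℕ) : ℕ := by
  classical exact ((range N).filter fun j => ((α ^ j) x).1 k = q).card

theorem SBV_add (k : ℕ) (q : Am) (x : ↥(XS B)) (a b : ℕ) :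
    SBV_c B α k q x (a + b) = SBV_c B α k q x a + SBV_c B α k q ((α ^ a) x) b := by
  classical
  unfold SBV_c
  rw [card_filter, card_filter, card_filter, sum_range_add]
  congr 1
  refine sum_congr rfl fun j _ => ?_
  have h1 : (α ^ (a + j)) x = (α ^ j) ((α ^ a) x) := by
    rw [add_comm, pow_add]
    rfl
  rw [h1]

theorem SBV_walk (M : ℕ → ℕ → ℕ → ℕ) (hB : IsBS B M) (hSUC : SUC_stmt) (hα : IsAl B α)
    (hαI : IsAlI B α) (x : ↥(XS B)) (m e : ℕ) (s : ℝ) (i : ℕ) (hc : Can (B.L m) e s)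
    (hi : i < (B.L m).h e) (hx : x.1 m = emb (B.L m) e s i) :
    ∀ j, i + j < (B.L m).h e → ((α ^ j) x).1 m = emb (B.L m) e s (i + j) := by
  intro j
  induction j with
  | zero =>
    intro _
    rw [pow_zero, add_zero]
    exact hx
  | succ j ih =>
    intro hj
    have h1 := ih (by omega)
    have h2 := (hSUC B M hB α hα hαI ((α ^ j) x) m e s (i + j) hc (by omega) h1).1 (by omega)
    rw [pow_succ', ← add_assoc]
    exact h2

theorem SBV_next (M : ℕ → ℕ → ℕ → ℕ) (hB : IsBS B M) (hSUC : SUC_stmt) (hα : IsAl B α)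
    (hαI : IsAlI B α) (x : ↥(XS B)) (m e : ℕ) (s : ℝ) (i : ℕ) (hc : Can (B.L m) e s)
    (hi : i < (B.L m).h e) (hx : x.1 m = emb (B.L m) e s i) (n : ℕ) (hn : i + n = (B.L m).h e) :
    ∃ e' s', Can (B.L m) e' s' ∧ ((α ^ n) x).1 m = emb (B.L m) e' s' 0 := by
  obtain ⟨j, rfl⟩ : ∃ j, n = j + 1 := ⟨n - 1, by omega⟩
  have h1 := SBV_walk B α M hB hSUC hα hαI x m e s i hc hi hx j (by omega)
  have h2 := (hSUC B M hB α hα hαI ((α ^ j) x) m e s (i + j) hc (by omega) h1).2.1 (by omega)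
  rw [pow_succ']
  exact h2

theorem SBV_one (M : ℕ → ℕ → ℕ → ℕ) (hB : IsBS B M) (hSUC : SUC_stmt) (hLPX : LPX_stmt)
    (hα : IsAl B α) (hαI : IsAlI B α) (k d : ℕ) (q : Am)
    (hq : ∀ (a : ℕ) (t : ℝ), a < (B.L (k + d)).N → t ∈ U → ∀ j j', j < (B.L (k + d)).h a →
      j' < (B.L (k + d)).h a → B.lp k d a t j = q → B.lp k d a t j' = q → j = j')
    (x : ↥(XS B)) (e : ℕ) (s : ℝ) (i : ℕ) (hc : Can (B.L (k + d)) e s)
    (hi : i < (B.L (k + d)).h e) (hx : x.1 (k + d) = emb (B.L (k + d)) e s i) (n : ℕ)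
    (hn : i + n ≤ (B.L (k + d)).h e) : SBV_c B α k q x n ≤ 1 := by
  classical
  unfold SBV_c
  rw [card_le_one]
  have h1 : ∀ j, i + j < (B.L (k + d)).h e → ((α ^ j) x).1 k = B.lp k d e s (i + j) := by
    intro j hj
    exact hLPX B M hB ((α ^ j) x) k d e s (i + j) hc.1 hc.2.2 hj
      (SBV_walk B α M hB hSUC hα hαI x (k + d) e s i hc hi hx j hj)
  intro a ha b hb
  rw [mem_filter, mem_range] at ha hb
  have h2 := hq e s hc.1 hc.2.2 (i + a) (i + b) (by omega) (by omega)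
    (by rw [← h1 a (by omega)]; exact ha.2) (by rw [← h1 b (by omega)]; exact hb.2)
  omega

theorem SBV_zero (M : ℕ → ℕ → ℕ → ℕ) (hB : IsBS B M) (hSUC : SUC_stmt) (hLPX : LPX_stmt)
    (hα : IsAl B α) (hαI : IsAlI B α) (k d : ℕ) (q : Am)
    (hq : ∀ (a : ℕ) (t : ℝ), a < (B.L (k + d)).N → t ∈ U → ∀ j j', j < (B.L (k + d)).h a →
      j' < (B.L (k + d)).h a → B.lp k d a t j = q → B.lp k d a t j' = q → j = j') (N : ℕ) :
    ∀ (x : ↥(XS B)) (e : ℕ) (s : ℝ), Can (B.L (k + d)) e s →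
    x.1 (k + d) = emb (B.L (k + d)) e s 0 →
    (SBV_c B α k q x N : ℝ) ≤ (N : ℝ) / ((k + d : ℕ) + 1) + 1 := by
  induction N using Nat.strong_induction_on with
  | _ N ih =>
    intro x e s hc hx
    have hD : (0 : ℝ) < ((k + d : ℕ) : ℝ) + 1 := by positivity
    have hpos : 0 < (B.L (k + d)).h e := (hB.lv (k + d)).pos e hc.1
    by_cases hN : N < (B.L (k + d)).h e
    · have h1 := SBV_one B α M hB hSUC hLPX hα hαI k d q hq x e s 0 hc hpos hx N (by omega)
      have h2 : (SBV_c B α k q x N : ℝ) ≤ 1 := by exact_mod_cast h1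
      have h3 : (0 : ℝ) ≤ (N : ℝ) / ((k + d : ℕ) + 1) := by positivity
      linarith
    · have hN' : (B.L (k + d)).h e ≤ N := not_lt.mp hN
      have h1 := SBV_one B α M hB hSUC hLPX hα hαI k d q hq x e s 0 hc hpos hx
        ((B.L (k + d)).h e) (by omega)
      obtain ⟨e', s', hc', hx'⟩ := SBV_next B α M hB hSUC hα hαI x (k + d) e s 0 hc hpos hx
        ((B.L (k + d)).h e) (by omega)
      have h2 := ih (N - (B.L (k + d)).h e) (by omega) _ e' s' hc' hx'
      have h3 : SBV_c B α k q x N = SBV_c B α k q x ((B.L (k + d)).h e) +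
          SBV_c B α k q ((α ^ ((B.L (k + d)).h e)) x) (N - (B.L (k + d)).h e) := by
        rw [← SBV_add, Nat.add_sub_cancel' hN']
      have h4 : (SBV_c B α k q x ((B.L (k + d)).h e) : ℝ) ≤ 1 := by exact_mod_cast h1
      rw [Nat.cast_sub hN', sub_div] at h2
      have h5 : ((k + d : ℕ) : ℝ) + 1 ≤ ((B.L (k + d)).h e : ℝ) := by
        exact_mod_cast hB.big (k + d) e hc.1
      have h6 : (1 : ℝ) ≤ ((B.L (k + d)).h e : ℝ) / ((k + d : ℕ) + 1) := by
        rw [le_div_iff₀ hD, one_mul]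
        exact h5
      rw [h3, Nat.cast_add]
      linarith

end

theorem SBV (hSUC : SUC_stmt) (hBLK : BLK_stmt) (hLPX : LPX_stmt) : SBV_stmt := by
  intro B M hB α hα hαI k d q hq x N
  have hgoal : (SBV_c B α k q x N : ℝ) ≤ (N : ℝ) / ((k + d : ℕ) + 1) + 2 := by
    obtain ⟨e, s, i, hc, hi, hx, -⟩ := hBLK B M hB α hα hαI x (k + d)
    have hD : (0 : ℝ) < ((k + d : ℕ) : ℝ) + 1 := by positivity
    have h0 : (0 : ℝ) ≤ (N : ℝ) / ((k + d : ℕ) + 1) := by positivity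
    by_cases hN : i + N ≤ (B.L (k + d)).h e
    · have h1 := SBV_one B α M hB hSUC hLPX hα hαI k d q hq x e s i hc hi hx N hN
      have h2 : (SBV_c B α k q x N : ℝ) ≤ 1 := by exact_mod_cast h1
      linarith
    · obtain ⟨n, hn⟩ : ∃ n, i + n = (B.L (k + d)).h e := ⟨(B.L (k + d)).h e - i, by omega⟩
      have hnN : n ≤ N := by omega
      have h1 := SBV_one B α M hB hSUC hLPX hα hαI k d q hq x e s i hc hi hx n (by omega)
      obtain ⟨e', s', hc', hx'⟩ := SBV_next B α M hB hSUC hα hαI x (k + d) e s i hc hi hx n hn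
      have h2 := SBV_zero B α M hB hSUC hLPX hα hαI k d q hq (N - n) _ e' s' hc' hx'
      have h3 : SBV_c B α k q x N = SBV_c B α k q x n +
          SBV_c B α k q ((α ^ n) x) (N - n) := by
        rw [← SBV_add, Nat.add_sub_cancel' hnN]
      have h4 : (SBV_c B α k q x n : ℝ) ≤ 1 := by exact_mod_cast h1
      have h5 : ((N - n : ℕ) : ℝ) / ((k + d : ℕ) + 1) ≤ (N : ℝ) / ((k + d : ℕ) + 1) := by
        refine div_le_div_of_nonneg_right ?_ hD.le
        exact_mod_cast Nat.sub_le N n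
      rw [h3, Nat.cast_add]
      linarith
  exact hgoal

end Pool.Agent.BND
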