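import Pool.Agent.helper53.BND.SpecT

/-! TIV: the means are nearly invariant. -/

set_option autoImplicit false

open scoped Topology
open Finset Filter

namespace Pool.Agent.BND

open Pool.Agent.CZ Pool.Agent.PV Pool.Agent.PVH

theorem TIV (hSUC : SUC_stmt) (hLPX : LPX_stmt) : TIV_stmt := by
  intro B M hB α hα hαI x hx r hr k F f C hfF hfC d
  have h0U : (0 : ℝ) ∈ U := ⟨le_rfl, zero_le_one⟩
  have hC0 : 0 ≤ C := (abs_nonneg _).trans (hfC (x 0 0 0))
  set m := k + d with hm
  have hlv := hB.lv m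
  -- one vertex
  have h1 : ∀ v, v < (B.L m).n →
      |∑ i ∈ range ((B.L m).h v), f (α (x m v i)) - ∑ i ∈ range ((B.L m).h v), f (x m v i)| ≤
        2 * C := by
    intro v hv
    have hvN : v < (B.L m).N := hv.trans_le hlv.nN
    obtain ⟨h₀, hh⟩ : ∃ h₀, (B.L m).h v = h₀ + 1 :=
      ⟨(B.L m).h v - 1, by have := hlv.pos v hvN; omega⟩
    have h2 : ∀ i ∈ range h₀, f (α (x m v i)) = f (x m v (i + 1)) := by
      intro i hi
      rw [mem_range] at hi
      have hi1 : i < (B.L m).h v := by omega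
      have hi2 : i + 1 < (B.L m).h v := by omega
      have h3 := (hSUC B M hB α hα hαI (x m v i) m v 0 i ⟨hvN, Or.inl hv, h0U⟩ hi1
        (hx m v i hv hi1)).1 hi2
      have h4 := hLPX B M hB (α (x m v i)) k d v 0 (i + 1) hvN h0U hi2 h3
      have h5 := hLPX B M hB (x m v (i + 1)) k d v 0 (i + 1) hvN h0U hi2 (hx m v (i + 1) hv hi2)
      rw [hfF, hfF, h4, h5]
    rw [hh, sum_range_succ, sum_range_succ' (fun i => f (x m v i)), sum_congr rfl h2,
      add_sub_add_left_eq_sub]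
    refine (abs_sub _ _).trans ?_
    have h6 := hfC (α (x m v h₀))
    have h7 := hfC (x m v 0)
    linarith
  have h2 : B.lev x r m (f.comp (α : C(↥(XS B), ↥(XS B)))) - B.lev x r m f =
      ∑ v ∈ range (B.L m).n, r m v * (∑ i ∈ range ((B.L m).h v), f (α (x m v i)) -
        ∑ i ∈ range ((B.L m).h v), f (x m v i)) := by
    unfold BS.lev
    rw [← sum_sub_distrib]
    refine sum_congr rfl fun v _ => ?_
    rw [← mul_sub]
    rfl
  rw [h2]
  refine (abs_sum_le_sum_abs _ _).trans ?_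
  have h3 : ∀ v ∈ range (B.L m).n, |r m v * (∑ i ∈ range ((B.L m).h v), f (α (x m v i)) -
        ∑ i ∈ range ((B.L m).h v), f (x m v i))| ≤ r m v * (2 * C) := by
    intro v hv
    rw [abs_mul, abs_of_nonneg (hr.nn m v (mem_range.mp hv))]
    exact mul_le_mul_of_nonneg_left (h1 v (mem_range.mp hv)) (hr.nn m v (mem_range.mp hv))
  refine (sum_le_sum h3).trans ?_
  rw [← sum_mul]
  have hD : (0 : ℝ) < (m : ℝ) + 1 := by positivity
  have h4 : (∑ v ∈ range (B.L m).n, r m v) * ((m : ℝ) + 1) ≤ 1 := by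
    refine le_trans ?_ (hr.unit m).le
    rw [sum_mul]
    refine sum_le_sum fun v hv => ?_
    rw [mul_comm]
    refine mul_le_mul_of_nonneg_right ?_ (hr.nn m v (mem_range.mp hv))
    exact_mod_cast hB.big m v ((mem_range.mp hv).trans_le hlv.nN)
  rw [le_div_iff₀ hD]
  have h5 : (∑ v ∈ range (B.L m).n, r m v) * (2 * C) * ((m : ℝ) + 1) =
      ((∑ v ∈ range (B.L m).n, r m v) * ((m : ℝ) + 1)) * (2 * C) := by ring
  rw [h5]
  have h6 := mul_le_mul_of_nonneg_right h4 (by positivity : (0 : ℝ) ≤ 2 * C)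
  linarith

end Pool.Agent.BND
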