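import Pool.Agent.helper53.BND.SpecT

/-! TLI: the limit of the means. -/

set_option autoImplicit false

open scoped Topology
open Finset Filter

namespace Pool.Agent.BND

open Pool.Agent.CZ Pool.Agent.PV Pool.Agent.PVH

theorem TLI (hTWT : TWT_stmt) (hTLB : TLB_stmt) (hTCY : TCY_stmt) : TLI_stmt := by
  intro E _ _ _ K H _ ρ g hKD B M th H' hB hTh x hx
  have : CompactSpace K := isCompact_iff_compactSpace.mp hKD.compact
  have hw : ∀ t : K, IsWt B M (fun m v => ρ (th m v) t) := hTWT E K H ρ g hKD B M th H' hTh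
  obtain ⟨u, hu⟩ : ∃ u : ℕ → C(↥(XS B), ℝ) → C(K, ℝ), ∀ m f (t : K),
      u m f t = B.lev x (fun m v => ρ (th m v) t) m f := by
    refine ⟨fun m f => ∑ v ∈ range (B.L m).n,
      (∑ i ∈ range ((B.L m).h v), f (x m v i)) • ρ (th m v), ?_⟩
    intro m f t
    rw [ContinuousMap.sum_apply]
    unfold BS.lev
    refine sum_congr rfl fun v _ => ?_
    rw [ContinuousMap.smul_apply, smul_eq_mul, mul_comm]
  have hC : ∀ f, CauchySeq (fun m => u m f) := by
    intro f
    rw [Metric.cauchySeq_iff']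
    intro ε hε
    obtain ⟨m₀, hm₀⟩ := hTCY B M hB x hx f (ε / 2) (by linarith)
    refine ⟨m₀, fun m hm => ?_⟩
    have h1 : dist (u m f) (u m₀ f) ≤ ε / 2 := by
      rw [ContinuousMap.dist_le (by linarith)]
      intro t
      rw [Real.dist_eq, hu, hu]
      exact hm₀ m m₀ hm le_rfl _ (hw t)
    linarith
  have hex : ∀ f, ∃ a, Tendsto (fun m => u m f) atTop (𝓝 a) :=
    fun f => cauchySeq_tendsto_of_complete (hC f)
  choose Φ₀ hΦ₀ using hex
  have hpt : ∀ f (t : K), Tendsto (fun m => B.lev x (fun m v => ρ (th m v) t) m f) atTop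
      (𝓝 (Φ₀ f t)) := by
    intro f t
    have h1 : Continuous fun a : C(K, ℝ) => a t := continuous_eval_const t
    have h2 := (h1.tendsto (Φ₀ f)).comp (hΦ₀ f)
    refine h2.congr fun m => ?_
    exact hu m f t
  let Φ : C(↥(XS B), ℝ) →ₗ[ℝ] C(K, ℝ) :=
    { toFun := Φ₀
      map_add' := by
        intro f f'
        refine ContinuousMap.ext fun t => ?_
        rw [ContinuousMap.add_apply]
        refine tendsto_nhds_unique (hpt (f + f') t) (((hpt f t).add (hpt f' t)).congr fun m => ?_)
        exact ((hTLB B M x _ (hw t) m).1 f f').symm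
      map_smul' := by
        intro a f
        refine ContinuousMap.ext fun t => ?_
        rw [ContinuousMap.smul_apply, smul_eq_mul, RingHom.id_apply]
        refine tendsto_nhds_unique (hpt (a • f) t) (((hpt f t).const_mul a).congr fun m => ?_)
        exact ((hTLB B M x _ (hw t) m).2.1 a f).symm }
  refine ⟨Φ, ?_, ?_, ?_, ?_⟩
  · intro f
    refine ⟨?_⟩
    intro p q z s t hs ht hst hz
    change Φ₀ f z = s * Φ₀ f p + t * Φ₀ f q
    refine tendsto_nhds_unique (hpt f z)
      ((((hpt f p).const_mul s).add ((hpt f q).const_mul t)).congr fun m => ?_)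
    unfold BS.lev
    rw [mul_sum, mul_sum, ← sum_add_distrib]
    refine sum_congr rfl fun v _ => ?_
    have h1 := (hKD.aff (th m v)).aff p q z s t hs ht hst hz
    change s * (ρ (th m v) p * _) + t * (ρ (th m v) q * _) = ρ (th m v) z * _
    rw [h1]
    ring
  · intro f hf t
    exact ge_of_tendsto' (hpt f t) fun m => (hTLB B M x _ (hw t) m).2.2.1 f hf
  · refine ContinuousMap.ext fun t => ?_
    change Φ₀ 1 t = 1
    refine tendsto_nhds_unique (hpt 1 t) (tendsto_const_nhds.congr fun m => ?_)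
    exact ((hTLB B M x _ (hw t) m).2.2.2.1).symm
  · intro f ε hε
    obtain ⟨m₀, hm₀⟩ := hTCY B M hB x hx f ε hε
    refine ⟨m₀, fun m hm t => ?_⟩
    change |_ - Φ₀ f t| ≤ ε
    have h1 : Tendsto (fun m' => |B.lev x (fun m v => ρ (th m v) t) m f -
        B.lev x (fun m v => ρ (th m v) t) m' f|) atTop
        (𝓝 |B.lev x (fun m v => ρ (th m v) t) m f - Φ₀ f t|) :=
      (tendsto_const_nhds.sub (hpt f t)).abs
    refine le_of_tendsto h1 ?_
    filter_upwards [eventually_ge_atTop m₀] with m' hm'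
    exact hm₀ m m' hm hm' _ (hw t)

end Pool.Agent.BND
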