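import Pool.Agent.helper53.BND.SpecT

/-! TS1: sums over the letters of the vertices. -/

set_option autoImplicit false

open scoped Topology
open Finset Filter

namespace Pool.Agent.BND

open Pool.Agent.CZ Pool.Agent.PV Pool.Agent.PVH

theorem TS1_sw (f : ℕ → ℝ → ℝ) (C : ℝ) (w : List (ℕ × ℝ)) :
    sw (fun e s => f e s / C) w = sw f w / C := by
  unfold sw
  induction w with
  | nil => simp
  | cons a w ih => rw [List.map_cons, List.map_cons, List.sum_cons, List.sum_cons, ih, add_div]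

theorem TS1 (hTLS : TLS_stmt) : TS1_stmt := by
  intro B M hB k d F C hC hF v' hv'
  have h0U : (0 : ℝ) ∈ U := ⟨le_rfl, zero_le_one⟩
  obtain ⟨-, h2, h3⟩ := hTLS B M hB k d
  have h4 := hB.st1 (k + d) v' (fun e s => B.ls k d F e s / C) hv' (by
    intro e s he hs
    rw [abs_div, abs_of_pos hC, div_le_iff₀ hC, mul_comm]
    exact h3 F C hF e s he hs)
  rw [TS1_sw, ← h2 F v' 0 (hv'.trans_le (hB.lv _).nN) h0U] at h4
  have h5 : ∑ v ∈ range (B.L (k + d)).n, (M (k + d) v' v : ℝ) * (B.ls k d F v 0 / C) =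
      (∑ v ∈ range (B.L (k + d)).n, (M (k + d) v' v : ℝ) * B.ls k d F v 0) / C := by
    rw [sum_div]
    refine sum_congr rfl fun v _ => ?_
    rw [mul_div_assoc]
  rw [h5, ← sub_div, abs_div, abs_of_pos hC, div_le_iff₀ hC] at h4
  refine h4.trans (le_of_eq ?_)
  ring

end Pool.Agent.BND
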