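import Pool.Agent.helper53.BND.SpecT

/-! TS2: sums over the letters of the bands. -/

set_option autoImplicit false

open scoped Topology
open Finset Filter

namespace Pool.Agent.BND

open Pool.Agent.CZ Pool.Agent.PV Pool.Agent.PVH

theorem TS2_sw (f : ℕ → ℝ → ℝ) (C : ℝ) (w : List (ℕ × ℝ)) :
    sw (fun e s => f e s / C) w = sw f w / C := by
  unfold sw
  induction w with
  | nil => simp
  | cons a w ih => rw [List.map_cons, List.map_cons, List.sum_cons, List.sum_cons, ih, add_div]

theorem TS2_list (h : ℕ → ℕ) (f : ℕ → ℝ) (c : ℝ) (u : List ℕ) (hf : ∀ v ∈ u, f v ≤ c * (h v : ℝ)) :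
    (u.map f).sum ≤ c * ((u.map h).sum : ℝ) := by
  induction u with
  | nil => simp
  | cons a u ih =>
    rw [List.map_cons, List.map_cons, List.sum_cons, List.sum_cons]
    have h1 := hf a List.mem_cons_self
    have h2 := ih (fun v hv => hf v (List.mem_cons_of_mem _ hv))
    push_cast at h2 ⊢
    rw [mul_add]
    linarith

theorem TS2 (hTLS : TLS_stmt) : TS2_stmt := by
  intro B M hB k d F C hC hF V hV e s he hs
  have h0U : (0 : ℝ) ∈ U := ⟨le_rfl, zero_le_one⟩
  obtain ⟨-, h2, h3⟩ := hTLS B M hB k d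
  obtain ⟨r, hr, h4⟩ := hB.st2 (k + d) e s (fun e s => B.ls k d F e s / C) he hs (by
    intro e s he hs
    rw [abs_div, abs_of_pos hC, div_le_iff₀ hC, mul_comm]
    exact h3 F C hF e s he hs)
  have hS : ∀ b : Bool, (((B.L (k + d + 1)).W e b).map fun v =>
      sw (fun e s => B.ls k d F e s / C) (B.w (k + d) v 0)).sum ≤
      V / C * ((B.L (k + d + 1)).h e : ℝ) := by
    intro b
    have h5 := TS2_list (B.L (k + d + 1)).h
      (fun v => sw (fun e s => B.ls k d F e s / C) (B.w (k + d) v 0)) (V / C)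
      ((B.L (k + d + 1)).W e b) (by
        intro v hv
        have h6 := (hB.lv (k + d + 1)).mem e he b v hv
        have h7 := hV v h6
        rw [h2 F v 0 (h6.trans_le (hB.lv _).nN) h0U] at h7
        change sw (fun e s => B.ls k d F e s / C) (B.w (k + d) v 0) ≤ _
        rw [TS2_sw, div_mul_eq_mul_div]
        exact div_le_div_of_nonneg_right h7 hC.le)
    rw [(hB.lv (k + d + 1)).ht e he b] at h5
    exact h5
  have h5 := (abs_le.mp h4).2
  rw [TS2_sw, ← h2 F e s he hs] at h5
  have h6 : (1 - r) * (((B.L (k + d + 1)).W e false).map fun v =>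
      sw (fun e s => B.ls k d F e s / C) (B.w (k + d) v 0)).sum ≤
      (1 - r) * (V / C * ((B.L (k + d + 1)).h e : ℝ)) :=
    mul_le_mul_of_nonneg_left (hS false) (by linarith [hr.2])
  have h7 : r * (((B.L (k + d + 1)).W e true).map fun v =>
      sw (fun e s => B.ls k d F e s / C) (B.w (k + d) v 0)).sum ≤
      r * (V / C * ((B.L (k + d + 1)).h e : ℝ)) :=
    mul_le_mul_of_nonneg_left (hS true) hr.1
  have h8 : B.ls k (d + 1) F e s / C ≤
      V / C * ((B.L (k + d + 1)).h e : ℝ) + (1 / 2) ^ (k + d) * ((B.L (k + d + 1)).h e : ℝ) := by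
    have h9 : (1 - r) * (V / C * ((B.L (k + d + 1)).h e : ℝ)) +
        r * (V / C * ((B.L (k + d + 1)).h e : ℝ)) = V / C * ((B.L (k + d + 1)).h e : ℝ) := by
      ring
    linarith
  rw [div_le_iff₀ hC] at h8
  refine h8.trans (le_of_eq ?_)
  field_simp

end Pool.Agent.BND
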