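import Pool.Agent.helper53.BND.SpecT

/-! TSP: the means are close. -/

set_option autoImplicit false

open scoped Topology
open Finset Filter

namespace Pool.Agent.BND

open Pool.Agent.CZ Pool.Agent.PV Pool.Agent.PVH

theorem TSP_step (hTS1 : TS1_stmt) (B : BS) (M : ℕ → ℕ → ℕ → ℕ) (hB : IsBS B M)
    (r : ℕ → ℕ → ℝ) (hr : IsWt B M r) (k : ℕ) (F : Am → ℝ) (C : ℝ) (hC : 0 < C)
    (hF : ∀ y ∈ FS (B.L k), |F y| ≤ C) (d : ℕ) :
    |B.av r k (d + 1) F - B.av r k d F| ≤ C * (1 / 2) ^ (k + d) := by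
  have h1 : B.av r k d F = ∑ v' ∈ range (B.L (k + d + 1)).n, r (k + d + 1) v' *
      ∑ v ∈ range (B.L (k + d)).n, (M (k + d) v' v : ℝ) * B.ls k d F v 0 := by
    unfold BS.av
    have h2 : ∀ v ∈ range (B.L (k + d)).n, r (k + d) v * B.ls k d F v 0 =
        ∑ v' ∈ range (B.L (k + d + 1)).n, r (k + d + 1) v' *
          ((M (k + d) v' v : ℝ) * B.ls k d F v 0) := by
      intro v hv
      rw [hr.eq (k + d) v (mem_range.mp hv), sum_mul]
      refine sum_congr rfl fun v' _ => ?_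
      ring
    rw [sum_congr rfl h2, sum_comm]
    refine sum_congr rfl fun v' _ => ?_
    rw [mul_sum]
  have h3 : B.av r k (d + 1) F - B.av r k d F = ∑ v' ∈ range (B.L (k + d + 1)).n,
      r (k + d + 1) v' * (B.ls k (d + 1) F v' 0 -
        ∑ v ∈ range (B.L (k + d)).n, (M (k + d) v' v : ℝ) * B.ls k d F v 0) := by
    rw [h1]
    change (∑ v' ∈ range (B.L (k + d + 1)).n, r (k + d + 1) v' * B.ls k (d + 1) F v' 0) - _ = _
    rw [← sum_sub_distrib]
    refine sum_congr rfl fun v' _ => ?_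
    ring
  rw [h3]
  refine (abs_sum_le_sum_abs _ _).trans ?_
  have h4 : ∀ v' ∈ range (B.L (k + d + 1)).n, |r (k + d + 1) v' * (B.ls k (d + 1) F v' 0 -
        ∑ v ∈ range (B.L (k + d)).n, (M (k + d) v' v : ℝ) * B.ls k d F v 0)| ≤
      C * (1 / 2) ^ (k + d) * (((B.L (k + d + 1)).h v' : ℝ) * r (k + d + 1) v') := by
    intro v' hv'
    rw [abs_mul, abs_of_nonneg (hr.nn _ _ (mem_range.mp hv'))]
    have h5 := hTS1 B M hB k d F C hC hF v' (mem_range.mp hv')
    refine (mul_le_mul_of_nonneg_left h5 (hr.nn _ _ (mem_range.mp hv'))).trans (le_of_eq ?_)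
    ring
  refine (sum_le_sum h4).trans (le_of_eq ?_)
  rw [← mul_sum, hr.unit, mul_one]

theorem TSP (hTS1 : TS1_stmt) : TSP_stmt := by
  intro B M hB r hr k F C hC hF d j
  have h1 : |B.av r k (d + j) F - B.av r k d F| ≤
      2 * C * ((1 / 2) ^ (k + d) - (1 / 2) ^ (k + d + j)) := by
    induction j with
    | zero => simp
    | succ j ih =>
      have h2 := TSP_step hTS1 B M hB r hr k F C hC hF (d + j)
      have h3 : B.av r k (d + (j + 1)) F - B.av r k d F =
          (B.av r k (d + j + 1) F - B.av r k (d + j) F) +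
            (B.av r k (d + j) F - B.av r k d F) := by
        rw [← add_assoc]
        ring
      rw [h3]
      refine (abs_add_le _ _).trans ((add_le_add h2 ih).trans (le_of_eq ?_))
      rw [← add_assoc, ← add_assoc, pow_succ]
      ring
  refine h1.trans ?_
  have h4 : (0 : ℝ) ≤ (1 / 2) ^ (k + d + j) := by positivity
  have h5 : 2 * C * ((1 / 2) ^ (k + d) - (1 / 2) ^ (k + d + j)) =
      2 * C * (1 / 2) ^ (k + d) - 2 * C * (1 / 2) ^ (k + d + j) := by ring
  rw [h5]
  have h6 : 0 ≤ 2 * C * (1 / 2) ^ (k + d + j) := by positivity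
  linarith

end Pool.Agent.BND
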