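import Pool.Agent.helper77.BND.SpecD

/-! UPC: the ends of the bands. -/

set_option autoImplicit false

open scoped Topology
open Finset

namespace Pool.Agent.BND

open Pool.Agent.CZ Pool.Agent.PV

theorem UPC (hFLM : FLM_stmt) (hFLS : FLS_stmt) (hFLV : FLV_stmt) (hSTE : STE_stmt) : UPC_stmt := by
  intro B M hB m e i b hne heN hi
  have hlv := hB.lv (m + 1)
  have h0U : (0 : ℝ) ∈ U := ⟨le_rfl, zero_le_one⟩
  set l' := B.L (m + 1) with hl'
  set u := l'.W e b with hu
  have hsum : (u.map l'.h).sum = l'.h e := hlv.ht e heN b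
  have hmem : ∀ v ∈ u, v < l'.N := fun v hv => (hlv.mem e heN b v hv).trans_le hlv.nN
  obtain ⟨-, -, hfl⟩ := hFLM (B.L m).h l'.h (fun v => B.w m v 0) u
    (fun v hv => hB.htw m v 0 (hmem v hv) h0U)
  have hst : ∀ j, j < l'.h e → B.st m e (if b then 1 else 0) j =
      B.st m (fl l'.h u j).1 0 (fl l'.h u j).2 := by
    intro j hj
    rw [hB.ends m e b j heN hj]
    have h1 := hfl Am (emb (B.L m)) j (by rw [hsum]; exact hj)
    exact h1
  have hflv : ∀ j, j < l'.h e → (fl l'.h u j).2 < l'.h (fl l'.h u j).1 ∧ (fl l'.h u j).1 < l'.N := by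
    intro j hj
    obtain ⟨h1, P, Q, h2, -⟩ := hFLV l'.h u j (by rw [hsum]; exact hj)
    refine ⟨h1, hmem _ ?_⟩
    have h3 : (fl l'.h u j).1 ∈ P ++ (fl l'.h u j).1 :: Q := by simp
    rw [← h2] at h3
    exact h3
  obtain ⟨hf0, hfs, hfe⟩ := hFLS l'.h u
  obtain ⟨-, -, hste⟩ := hSTE B M hB m
  intro q
  refine ⟨hst i hi, ?_, ?_⟩
  · -- up
    unfold BS.up
    by_cases h1 : i + 1 < l'.h e
    · rw [if_pos h1, hst (i + 1) h1]
      obtain ⟨a1, a2, -, -⟩ := hfs i (by rw [hsum]; exact h1)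
      by_cases h2 : q.2 + 1 < l'.h q.1
      · rw [if_pos h2, a1 h2]
      · have h3 : q.2 + 1 = l'.h q.1 := by
          have := (hflv i hi).1
          change ¬ (fl l'.h u i).2 + 1 < l'.h (fl l'.h u i).1 at h2
          change (fl l'.h u i).2 + 1 = l'.h (fl l'.h u i).1
          omega
        rw [if_neg h2, a2 h3]
        exact (hste _ 0 (hflv (i + 1) h1).2 h0U).1
    · have h2 : i + 1 = l'.h e := by omega
      have h3 := hfe i (by rw [hsum]; exact h2)
      have h4 : ¬ q.2 + 1 < l'.h q.1 := by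
        change ¬ (fl l'.h u i).2 + 1 < l'.h (fl l'.h u i).1
        omega
      rw [if_neg h1, if_neg h4]
  · -- down
    unfold BS.dn
    by_cases h1 : i = 0
    · have h2 : q.2 = 0 := by
        change (fl l'.h u i).2 = 0
        rw [h1]
        exact hf0
      rw [if_pos h1, if_pos h2]
    · obtain ⟨i', rfl⟩ : ∃ i', i = i' + 1 := ⟨i - 1, by omega⟩
      rw [if_neg h1, Nat.add_sub_cancel, hst i' (by omega)]
      obtain ⟨-, -, a3, a4⟩ := hfs i' (by rw [hsum]; exact hi)
      by_cases h2 : q.2 = 0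
      · rw [if_pos h2]
        have h3 := a4 h2
        have h4 : (fl l'.h u i').2 = l'.h (fl l'.h u i').1 - 1 := by omega
        rw [h4]
        exact (hste _ 0 (hflv i' (by omega)).2 h0U).2.1
      · rw [if_neg h2, a3 (Nat.pos_of_ne_zero h2)]

end Pool.Agent.BND
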