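import Pool.Agent.helper77.BND.SpecD

/-! WDC: the letter at a floor of a word. -/

set_option autoImplicit false

open scoped Topology
open Finset

namespace Pool.Agent.BND

open Pool.Agent.CZ Pool.Agent.PV

theorem WDC : WDC_stmt := by
  intro h w
  induction w with
  | nil =>
    intro i hi
    simp [hw] at hi
  | cons b w ih =>
    intro i hi
    have hcons : ∀ v : List (ℕ × ℝ), hw h (b :: v) = h b.1 + hw h v := by
      intro v
      simp [hw]
    rw [hcons] at hi
    by_cases hib : i < h b.1
    · refine ⟨[], b, w, i, rfl, hib, ?_, ?_⟩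
      · simp [hw]
      · intro Z _ Φ
        simp [fw, hib]
    · obtain ⟨P, a, Q, j, h1, h2, h3, h4⟩ := ih (i - h b.1) (by omega)
      refine ⟨b :: P, a, Q, j, by rw [h1]; rfl, h2, ?_, ?_⟩
      · rw [hcons]
        omega
      · intro Z _ Φ
        rw [← h4 Z Φ]
        simp [fw, hib]

end Pool.Agent.BND
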