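import Pool.Agent.helper77.BND.SpecD

/-! XCP: the space is compact and metrizable. -/

set_option autoImplicit false

open scoped Topology
open Finset

namespace Pool.Agent.BND

open Pool.Agent.CZ Pool.Agent.PV

theorem XCP (hPMA : PMA_stmt) (hEMC : EMC_stmt) : XCP_stmt := by
  intro B M hB
  obtain ⟨p, -, -, hp, -, -⟩ := hPMA B M hB
  refine ⟨?_, ?_⟩
  · have hK : IsCompact (Set.pi Set.univ fun m => FS (B.L m)) :=
      isCompact_univ_pi fun m => hEMC _ (hB.lv m)
    have hXS : XS B = ⋂ m : ℕ, ((Set.pi Set.univ fun m => FS (B.L m)) ∩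
        (fun x : ℕ → Am => (x m, p m (x (m + 1)))) ⁻¹' Set.diagonal Am) := by
      ext x
      rw [Set.mem_iInter]
      constructor
      · intro hx m
        refine ⟨fun k _ => (hx k).1, ?_⟩
        obtain ⟨e, s, i, h1, h2, h3, h4⟩ := (hx (m + 1)).1
        change x m = p m (x (m + 1))
        rw [h4, hp.val m e s i h1 h2 h3]
        exact (hx m).2 e s i h1 h2 h3 h4
      · intro hx m
        refine ⟨(hx m).1 m (Set.mem_univ m), ?_⟩
        intro e s i h1 h2 h3 h4
        have h5 : x m = p m (x (m + 1)) := (hx m).2
        rw [h5, h4, hp.val m e s i h1 h2 h3]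
    refine hK.of_isClosed_subset ?_ ?_
    · rw [hXS]
      refine isClosed_iInter fun m => ?_
      refine ContinuousOn.preimage_isClosed_of_isClosed ?_ hK.isClosed isClosed_diagonal
      refine ContinuousOn.prodMk (continuous_apply m).continuousOn ?_
      refine ContinuousOn.comp (hp.cont m) (continuous_apply (m + 1)).continuousOn ?_
      intro x hx
      exact hx (m + 1) (Set.mem_univ _)
    · rw [hXS]
      exact (Set.iInter_subset _ 0).trans Set.inter_subset_left
  · have : SecondCountableTopology (ℕ → Am) := inferInstance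
    exact TopologicalSpace.metrizableSpace_of_t3_secondCountable _

end Pool.Agent.BND
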